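import Pool.Agent.H88.FP.Per

/-!
# FP Av: the mean of the upper densities

The sum of the sieve weights over an interval of length `x` is at most `6 x / log x`, whatever the interval is; so the same is true for the sum
over `n < x` of the mean over `k` of `gw lam N n k`, hence for the sum of the upper densities.
-/

set_option autoImplicit false

open Finset Filter

namespace Pool.Agent.H88.FP

open Pool.Agent.H3.LC (bt_expand bt_sum)

/-- sieve weights with `∑ ≤ 6 x / log x` on all intervals of length `x` -/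
theorem exists_weights (x : ℕ) (hx : 2 ≤ x) : ∃ (lam : ℕ → ℝ) (N : ℕ), lam 1 = 1 ∧ 1 ≤ N ∧
    ∀ X : ℕ, ∑ m ∈ Icc (X + 1) (X + x), (∑ r ∈ Icc 1 N, if r ∣ m then lam r else 0) ^ 2 ≤ 6 * x / Real.log x := by
  have hy2 : (2 : ℝ) ≤ x := by exact_mod_cast hx
  have hlog : 0 < Real.log x := Real.log_pos (by linarith)
  have hs1 : 1 < Real.sqrt x := by
    rw [Real.lt_sqrt zero_le_one]
    norm_num
    linarith
  set z := Real.sqrt (Real.sqrt x) with hz
  have hz1 : 1 < z := by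
    rw [hz, Real.lt_sqrt zero_le_one]
    simpa using hs1
  have hz2 : z ^ 2 = Real.sqrt x := Real.sq_sqrt (Real.sqrt_nonneg _)
  have hzlog : Real.log z = Real.log x / 4 := by
    rw [hz, Real.log_sqrt (Real.sqrt_nonneg _), Real.log_sqrt (by linarith)]
    ring
  obtain ⟨lam, l1, l2, -, -, l5⟩ := Pool.Agent.H91.PT.selberg_weights 1 le_rfl hz1
  have hN : 1 ≤ ⌊z⌋₊ := Nat.le_floor (by push_cast; exact hz1.le)
  have hNz : ((⌊z⌋₊ : ℕ) : ℝ) ≤ z := Nat.floor_le (by linarith)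
  refine ⟨lam, ⌊z⌋₊, l1, hN, fun X => ?_⟩
  rw [bt_expand]
  have k2 := bt_sum X x ⌊z⌋₊ lam l2
  have k3 : (x : ℝ) * (∑ r ∈ Icc 1 ⌊z⌋₊, ∑ s ∈ Icc 1 ⌊z⌋₊, lam r * lam s / (Nat.lcm r s : ℝ)) ≤ x * (4 / Real.log x) := by
    refine mul_le_mul_of_nonneg_left (l5.trans (le_of_eq ?_)) (by linarith)
    rw [hzlog]
    simp
  have hN2 : ((⌊z⌋₊ : ℕ) : ℝ) ^ 2 ≤ Real.sqrt x := by
    rw [← hz2]
    have : (0 : ℝ) ≤ ((⌊z⌋₊ : ℕ) : ℝ) := Nat.cast_nonneg _
    gcongr
  have hsq : Real.sqrt x ≤ 2 * x / Real.log x := by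
    rw [le_div_iff₀ hlog]
    have e1 : Real.log x = 2 * Real.log (Real.sqrt x) := by
      rw [Real.log_sqrt (by linarith)]
      ring
    have e2 := Real.log_le_sub_one_of_pos (by linarith : 0 < Real.sqrt x)
    have e3 : Real.sqrt x * Real.sqrt x = x := Real.mul_self_sqrt (by linarith)
    rw [e1]
    nlinarith
  have e4 : (6 : ℝ) * x / Real.log x = x * (4 / Real.log x) + 2 * x / Real.log x := by
    field_simp
    ring
  rw [e4]
  linarith

/-- the same for `n + 2^(2^k)`, `n < x` -/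
theorem sum_gw_le {lam : ℕ → ℝ} {N x : ℕ} {B : ℝ}
    (h : ∀ X : ℕ, ∑ m ∈ Icc (X + 1) (X + x), (∑ r ∈ Icc 1 N, if r ∣ m then lam r else 0) ^ 2 ≤ B) (k : ℕ) :
    ∑ n ∈ range x, gw lam N n k ≤ B := by
  obtain ⟨X, hX⟩ : ∃ X : ℕ, 2 ^ (2 ^ k) = X + 1 := Nat.exists_eq_add_one.2 (by positivity)
  have h1 := h X
  rw [← Ico_add_one_right_eq_Icc, sum_Ico_eq_sum_range] at h1
  rw [show X + x + 1 - (X + 1) = x by omega] at h1
  refine (le_of_eq (sum_congr rfl fun n _ => ?_)).trans h1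
  unfold gw
  rw [hX, add_comm n]

/-- the mean of the upper densities -/
theorem sum_dens_le (x : ℕ) (hx : 2 ≤ x) : ∑ n ∈ range x, dens n ≤ 6 * x / Real.log x := by
  obtain ⟨lam, N, l1, hN, h⟩ := exists_weights x hx
  obtain ⟨k₀, R, hR, hp⟩ := gw_period lam N
  have hR0 : (0 : ℝ) < R := by exact_mod_cast hR
  calc ∑ n ∈ range x, dens n ≤ ∑ n ∈ range x, (∑ j ∈ range R, gw lam N n (k₀ + j)) / R :=
        sum_le_sum fun n _ => dens_le l1 hN hR hp n
    _ = (∑ j ∈ range R, ∑ n ∈ range x, gw lam N n (k₀ + j)) / R := by rw [← sum_div, sum_comm]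
    _ ≤ (∑ j ∈ range R, 6 * x / Real.log x) / R := by
        refine div_le_div_of_nonneg_right ?_ hR0.le
        exact sum_le_sum fun j _ => sum_gw_le h _
    _ = 6 * x / Real.log x := by
        rw [sum_const, card_range, nsmul_eq_mul]
        field_simp

end Pool.Agent.H88.FP
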