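import Mathlib

/-!
# FP Crt: counting with independent congruence conditions, and the values of 2^(2^k) modulo some primes
-/

set_option autoImplicit false

open Finset

namespace Pool.Agent.H88.FP

/-- conditions modulo coprime numbers are independent -/
theorem crt_card (S T : ℕ → Prop) [DecidablePred S] [DecidablePred T] {a b : ℕ} (hab : Nat.Coprime a b) (ha : 0 < a) (hb : 0 < b)
    (hS : ∀ n, S n ↔ S (n % a)) (hT : ∀ n, T n ↔ T (n % b)) :
    ((range (a * b)).filter (fun n => S n ∧ T n)).card = ((range a).filter S).card * ((range b).filter T).card := by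
  rw [← card_product]
  refine card_bij' (fun n _ => (n % a, n % b)) (fun x _ => (Nat.chineseRemainder hab x.1 x.2 : ℕ)) ?_ ?_ ?_ ?_
  · intro n hn
    rw [mem_filter] at hn
    rw [mem_product, mem_filter, mem_filter]
    exact ⟨⟨mem_range.2 (Nat.mod_lt _ ha), (hS n).1 hn.2.1⟩, ⟨mem_range.2 (Nat.mod_lt _ hb), (hT n).1 hn.2.2⟩⟩
  · intro x hx
    rw [mem_product, mem_filter, mem_filter, mem_range, mem_range] at hx
    have h := (Nat.chineseRemainder hab x.1 x.2).2
    rw [mem_filter, mem_range]
    refine ⟨Nat.chineseRemainder_lt_mul hab x.1 x.2 ha.ne' hb.ne', ?_, ?_⟩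
    · rw [hS, show (Nat.chineseRemainder hab x.1 x.2 : ℕ) % a = x.1 from Eq.trans h.1 (Nat.mod_eq_of_lt hx.1.1)]
      exact hx.1.2
    · rw [hT, show (Nat.chineseRemainder hab x.1 x.2 : ℕ) % b = x.2 from Eq.trans h.2 (Nat.mod_eq_of_lt hx.2.1)]
      exact hx.2.2
  · intro n hn
    rw [mem_filter, mem_range] at hn
    have h := (Nat.chineseRemainder hab (n % a) (n % b)).2
    have h1 : (Nat.chineseRemainder hab (n % a) (n % b) : ℕ) ≡ n [MOD a * b] :=
      (Nat.modEq_and_modEq_iff_modEq_mul hab).1 ⟨h.1.trans (Nat.mod_modEq n a), h.2.trans (Nat.mod_modEq n b)⟩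
    exact Nat.ModEq.eq_of_lt_of_lt h1 (Nat.chineseRemainder_lt_mul hab _ _ ha.ne' hb.ne') hn.1
  · intro x hx
    rw [mem_product, mem_filter, mem_filter, mem_range, mem_range] at hx
    have h := (Nat.chineseRemainder hab x.1 x.2).2
    exact Prod.ext (Eq.trans h.1 (Nat.mod_eq_of_lt hx.1.1)) (Eq.trans h.2 (Nat.mod_eq_of_lt hx.2.1))

/-- a periodic set has a density -/
theorem count_periodic (S : ℕ → Prop) [DecidablePred S] {a : ℕ} (ha : 0 < a) (hS : ∀ n, S n ↔ S (n % a)) (x : ℕ) :
    ((range x).filter S).card ≤ (x / a + 1) * ((range a).filter S).card := by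
  have h1 : ∀ m : ℕ, ((range (m * a)).filter S).card ≤ m * ((range a).filter S).card := by
    intro m
    induction m with
    | zero => simp
    | succ m ih =>
      have e : (range ((m + 1) * a)).filter S ⊆ (range (m * a)).filter S ∪ ((range a).filter S).image (fun j => m * a + j) := by
        intro n hn
        rw [mem_filter, mem_range] at hn
        rw [mem_union, mem_filter, mem_range, mem_image]
        rcases Nat.lt_or_ge n (m * a) with h | h
        · exact Or.inl ⟨h, hn.2⟩
        · right
          have h2 : (m + 1) * a = m * a + a := by ring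
          have h3 : n - m * a < a := by omega
          have h4 : n % a = n - m * a := by
            have h5 : n = (n - m * a) + a * m := by rw [mul_comm a m]; omega
            rw [h5, Nat.add_mul_mod_self_left, Nat.mod_eq_of_lt h3]
            omega
          refine ⟨n - m * a, ?_, by omega⟩
          rw [mem_filter, mem_range, ← h4]
          exact ⟨by rw [h4]; exact h3, (hS n).1 hn.2⟩
      calc ((range ((m + 1) * a)).filter S).card ≤ _ := card_le_card e
        _ ≤ ((range (m * a)).filter S).card + (((range a).filter S).image (fun j => m * a + j)).card := card_union_le _ _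
        _ ≤ m * ((range a).filter S).card + ((range a).filter S).card := Nat.add_le_add ih card_image_le
        _ = (m + 1) * ((range a).filter S).card := by ring
  refine le_trans (card_le_card (filter_subset_filter _ ?_)) (h1 (x / a + 1))
  have := Nat.lt_mul_div_succ x ha
  rw [mul_comm] at this
  exact range_subset_range.2 this.le

/-- the number of residues different from `-1` -/
theorem count_ne {p : ℕ} (hp : 0 < p) : ((range p).filter (fun n => ¬ p ∣ n + 1)).card = p - 1 := by
  have e : (range p).filter (fun n => ¬ p ∣ n + 1) = range (p - 1) := by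
    ext n
    rw [mem_filter, mem_range, mem_range]
    constructor
    · rintro ⟨h1, h2⟩
      by_contra h3
      apply h2
      rw [show n + 1 = p by omega]
    · intro h
      refine ⟨by omega, fun h1 => ?_⟩
      have := Nat.le_of_dvd (by omega) h1
      omega
  rw [e, card_range]

theorem per_ne (p : ℕ) (n : ℕ) : ¬ p ∣ n + 1 ↔ ¬ p ∣ n % p + 1 := by
  rw [not_iff_not]
  exact Nat.ModEq.dvd_iff ((Nat.mod_modEq n p).symm.add_right 1) dvd_rfl

/-- if `2^(2^a) = 1` modulo `p` then all later terms are `1` modulo `p` -/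
theorem tower_one {p a : ℕ} (h : 2 ^ (2 ^ a) ≡ 1 [MOD p]) (k : ℕ) (hk : a ≤ k) : 2 ^ (2 ^ k) ≡ 1 [MOD p] := by
  induction k, hk using Nat.le_induction with
  | base => exact h
  | succ k hk ih =>
    rw [pow_succ 2 k, pow_mul]
    exact ih.pow 2

theorem tower_step {p a c d : ℕ} (h : 2 ^ (2 ^ a) ≡ c [MOD p]) (hc : c ^ 4 ≡ c [MOD p]) (k : ℕ) (hk : a ≤ k) (h2 : k % 2 = a % 2)
    (hd : d = c) : 2 ^ (2 ^ k) ≡ d [MOD p] := by
  subst hd
  obtain ⟨m, rfl⟩ : ∃ m, k = a + 2 * m := ⟨(k - a) / 2, by omega⟩
  clear hk h2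
  induction m with
  | zero => exact h
  | succ m ih =>
    rw [show a + 2 * (m + 1) = a + 2 * m + 2 by ring, pow_add 2 (a + 2 * m) 2, pow_mul]
    exact (ih.pow (2 ^ 2)).trans hc

end Pool.Agent.H88.FP
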