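import Pool.Agent.H88.FP.Crt

/-!
# FP Few: for three quarters of all `n` none of the numbers `n + 2^(2^k)`, `k ≥ 6`, is prime

If one of them is prime then `n` is odd, `n + 1` is not divisible by the prime factors `3, 5, 17, 257, 65537, 641` of the Fermat
numbers, and the two progressions `k` even, `k` odd are not both covered by the divisibility by `7` and by `13`.
-/

set_option autoImplicit false

open Finset

namespace Pool.Agent.H88.FP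

/-- one of the numbers `n + 2^(2^k)`, `k ≥ 6`, is prime -/
def Inf (n : ℕ) : Prop := ∃ k : ℕ, 6 ≤ k ∧ (n + 2 ^ (2 ^ k)).Prime

theorem not_inf {n : ℕ} (h : ∀ k, 6 ≤ k → ∃ p, 1 < p ∧ p ≤ 65537 ∧ p ∣ n + 2 ^ (2 ^ k)) : ¬ Inf n := by
  rintro ⟨k, hk, h1⟩
  obtain ⟨p, hp1, hpL, hp⟩ := h k hk
  have h3 : 2 ^ (2 ^ 6) ≤ 2 ^ (2 ^ k) := Nat.pow_le_pow_right (by norm_num) (Nat.pow_le_pow_right (by norm_num) hk)
  have h6 : 65537 < 2 ^ (2 ^ 6) := by norm_num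
  rcases (Nat.dvd_prime h1).1 hp with h4 | h4
  · exact absurd h4 hp1.ne'
  · have h5 : 65537 < p := by
      rw [h4]
      exact lt_of_lt_of_le h6 (h3.trans (Nat.le_add_left _ _))
    exact absurd hpL (not_le.2 h5)

theorem inf_odd {n : ℕ} (h : Inf n) : ¬ 2 ∣ n := by
  intro h2
  refine not_inf (n := n) (fun k _ => ⟨2, by norm_num, by norm_num, ?_⟩) h
  exact dvd_add h2 (dvd_pow_self 2 (by positivity))

theorem inf_ne {p a n : ℕ} (hp : 1 < p) (hp2 : p ≤ 65537) (ha6 : a ≤ 6) (ha : 2 ^ (2 ^ a) ≡ 1 [MOD p]) (h : Inf n) : ¬ p ∣ n + 1 := by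
  intro h2
  refine not_inf (n := n) (fun k hk => ⟨p, hp, hp2, ?_⟩) h
  have h3 := (tower_one ha k (ha6.trans hk)).add_left n
  exact (h3.dvd_iff dvd_rfl).2 h2

theorem inf_cov {n : ℕ} (h : Inf n) : ¬ ((7 ∣ n + 2 ∧ 13 ∣ n + 9) ∨ (7 ∣ n + 4 ∧ 13 ∣ n + 3)) := by
  intro h2
  refine not_inf (n := n) (fun k hk => ?_) h
  rcases Nat.mod_two_eq_zero_or_one k with hk2 | hk2
  · have e7 : 2 ^ (2 ^ k) ≡ 2 [MOD 7] := tower_step (a := 2) (c := 2) (by decide) (by decide) k (by omega) (by omega) rfl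
    have e13 : 2 ^ (2 ^ k) ≡ 3 [MOD 13] := tower_step (a := 2) (c := 3) (by decide) (by decide) k (by omega) (by omega) rfl
    rcases h2 with h2 | h2
    · exact ⟨7, by norm_num, by norm_num, ((e7.add_left n).dvd_iff dvd_rfl).2 h2.1⟩
    · exact ⟨13, by norm_num, by norm_num, ((e13.add_left n).dvd_iff dvd_rfl).2 h2.2⟩
  · have e7 : 2 ^ (2 ^ k) ≡ 4 [MOD 7] := tower_step (a := 1) (c := 4) (by decide) (by decide) k (by omega) (by omega) rfl
    have e13 : 2 ^ (2 ^ k) ≡ 9 [MOD 13] := tower_step (a := 3) (c := 9) (by decide) (by decide) k (by omega) (by omega) rfl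
    rcases h2 with h2 | h2
    · exact ⟨13, by norm_num, by norm_num, ((e13.add_left n).dvd_iff dvd_rfl).2 h2.2⟩
    · exact ⟨7, by norm_num, by norm_num, ((e7.add_left n).dvd_iff dvd_rfl).2 h2.1⟩

/-- `S` is periodic modulo `a` with `c` elements in a period -/
def Per (a c : ℕ) (S : ℕ → Prop) [DecidablePred S] : Prop := 0 < a ∧ (∀ n, S n ↔ S (n % a)) ∧ ((range a).filter S).card = c

theorem Per.and {a b c d : ℕ} {S T : ℕ → Prop} [DecidablePred S] [DecidablePred T] (h : Per a c S) (h' : Per b d T) (hab : Nat.Coprime a b) :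
    Per (a * b) (c * d) (fun n => S n ∧ T n) := by
  refine ⟨Nat.mul_pos h.1 h'.1, fun n => ?_, ?_⟩
  · refine and_congr ?_ ?_
    · rw [h.2.1 (n % (a * b)), Nat.mod_mul_right_mod, ← h.2.1]
    · rw [h'.2.1 (n % (a * b)), Nat.mod_mul_left_mod, ← h'.2.1]
  · rw [crt_card S T hab h.1 h'.1 h.2.1 h'.2.1, h.2.2, h'.2.2]

theorem per_p {p : ℕ} (hp : 0 < p) : Per p (p - 1) (fun n => ¬ p ∣ n + 1) := ⟨hp, per_ne p, count_ne hp⟩

theorem per_two : Per 2 1 (fun n => ¬ 2 ∣ n) := by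
  refine ⟨by norm_num, fun n => ?_, by decide⟩
  rw [not_iff_not]
  exact (Nat.mod_modEq n 2).symm.dvd_iff dvd_rfl

theorem per_91 : Per 91 89 (fun n => ¬ ((7 ∣ n + 2 ∧ 13 ∣ n + 9) ∨ (7 ∣ n + 4 ∧ 13 ∣ n + 3))) := by
  refine ⟨by norm_num, fun n => ?_, by decide⟩
  have h7 : n ≡ n % 91 [MOD 7] := (Nat.mod_modEq n 91).symm.of_dvd (by norm_num)
  have h13 : n ≡ n % 91 [MOD 13] := (Nat.mod_modEq n 91).symm.of_dvd (by norm_num)
  rw [not_iff_not, (h7.add_right 2).dvd_iff dvd_rfl, (h13.add_right 9).dvd_iff dvd_rfl, (h7.add_right 4).dvd_iff dvd_rfl,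
    (h13.add_right 3).dvd_iff dvd_rfl]

theorem per_all : Per (2 * 3 * 5 * 17 * 257 * 65537 * 641 * 91) (1 * (3 - 1) * (5 - 1) * (17 - 1) * (257 - 1) * (65537 - 1) * (641 - 1) * 89)
    (fun n => (((((((¬ 2 ∣ n) ∧ ¬ 3 ∣ n + 1) ∧ ¬ 5 ∣ n + 1) ∧ ¬ 17 ∣ n + 1) ∧ ¬ 257 ∣ n + 1) ∧ ¬ 65537 ∣ n + 1) ∧ ¬ 641 ∣ n + 1) ∧
      ¬ ((7 ∣ n + 2 ∧ 13 ∣ n + 9) ∨ (7 ∣ n + 4 ∧ 13 ∣ n + 3))) :=
  (((((((per_two.and (per_p (p := 3) (by norm_num)) (by norm_num)).and (per_p (p := 5) (by norm_num)) (by norm_num)).and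
    (per_p (p := 17) (by norm_num)) (by norm_num)).and (per_p (p := 257) (by norm_num)) (by norm_num)).and
    (per_p (p := 65537) (by norm_num)) (by norm_num)).and (per_p (p := 641) (by norm_num)) (by norm_num)).and per_91 (by norm_num))

theorem few (x : ℕ) : ((({n : ℕ | n < x ∧ Inf n}).ncard : ℕ) : ℝ) ≤ 2442 / 10000 * x + 122320668590080 := by
  have h := per_all
  have h0 := count_periodic _ h.1 h.2.1 x
  rw [h.2.2] at h0
  have h1 : {n : ℕ | n < x ∧ Inf n} ⊆ (((range x).filter (fun n => (((((((¬ 2 ∣ n) ∧ ¬ 3 ∣ n + 1) ∧ ¬ 5 ∣ n + 1) ∧ ¬ 17 ∣ n + 1) ∧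
      ¬ 257 ∣ n + 1) ∧ ¬ 65537 ∣ n + 1) ∧ ¬ 641 ∣ n + 1) ∧
      ¬ ((7 ∣ n + 2 ∧ 13 ∣ n + 9) ∨ (7 ∣ n + 4 ∧ 13 ∣ n + 3))) : Finset ℕ) : Set ℕ) := by
    rintro n ⟨hn, hi⟩
    rw [mem_coe, mem_filter, mem_range]
    refine ⟨hn, ⟨⟨⟨⟨⟨⟨inf_odd hi, ?_⟩, ?_⟩, ?_⟩, ?_⟩, ?_⟩, ?_⟩, inf_cov hi⟩
    · exact inf_ne (a := 1) (by norm_num) (by norm_num) (by norm_num) (by decide) hi
    · exact inf_ne (a := 2) (by norm_num) (by norm_num) (by norm_num) (by decide) hi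
    · exact inf_ne (a := 3) (by norm_num) (by norm_num) (by norm_num) (by decide) hi
    · exact inf_ne (a := 4) (by norm_num) (by norm_num) (by norm_num) (by decide) hi
    · exact inf_ne (a := 5) (by norm_num) (by norm_num) (by norm_num) (by decide) hi
    · exact inf_ne (a := 6) (by norm_num) (by norm_num) (by norm_num) (by decide) hi
  have h2 := Set.ncard_le_ncard h1 (Finset.finite_toSet _)
  rw [Set.ncard_coe_finset] at h2
  have h3 : (((({n : ℕ | n < x ∧ Inf n}).ncard : ℕ)) : ℝ) ≤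
      (((x / (2 * 3 * 5 * 17 * 257 * 65537 * 641 * 91) + 1) * (1 * (3 - 1) * (5 - 1) * (17 - 1) * (257 - 1) * (65537 - 1) * (641 - 1) * 89) : ℕ) : ℝ) := by
    exact_mod_cast h2.trans h0
  refine h3.trans ?_
  have e1 : 2 * 3 * 5 * 17 * 257 * 65537 * 641 * 91 = 501059474569290 := by norm_num
  have e2 : 1 * (3 - 1) * (5 - 1) * (17 - 1) * (257 - 1) * (65537 - 1) * (641 - 1) * 89 = 122320668590080 := by norm_num
  rw [e1, e2]
  have h4 : ((x / 501059474569290 : ℕ) : ℝ) ≤ (x : ℝ) / (501059474569290 : ℕ) := Nat.cast_div_le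
  have h5 : (0 : ℝ) ≤ x := Nat.cast_nonneg x
  push_cast at h4 ⊢
  linarith

end Pool.Agent.H88.FP
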