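import Pool.Agent.H3.LC.BT

/-!
# FP Per: the sequence 2^(2^k) modulo all small numbers

`gw lam N n k` is the square of the sum of the sieve weights `lam r`, `r ≤ N`, over the divisors `r` of `n + 2^(2^k)`.  It is eventually
periodic in `k` and it is `1` if `n + 2^(2^k)` is a prime larger than `N`.  So its mean over a period bounds the upper density `dens n` of the
`k` for which `n + 2^(2^k)` is prime.
-/

set_option autoImplicit false

open Finset Filter

namespace Pool.Agent.H88.FP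

/-- the upper density of the set of all `k` for which `n + 2^(2^k)` is prime -/
noncomputable def dens (n : ℕ) : ℝ :=
  limsup (fun K : ℕ => (((range K).filter (fun k => (n + 2 ^ (2 ^ k)).Prime)).card : ℝ) / K) atTop

/-- the square of the sum of the weights of the divisors `r ≤ N` of `n + 2^(2^k)` -/
noncomputable def gw (lam : ℕ → ℝ) (N n k : ℕ) : ℝ := (∑ r ∈ Icc 1 N, if r ∣ n + 2 ^ (2 ^ k) then lam r else 0) ^ 2

theorem gw_nonneg (lam : ℕ → ℝ) (N n k : ℕ) : 0 ≤ gw lam N n k := sq_nonneg _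

/-- `2^(2^k)` is eventually periodic modulo `L` -/
theorem exists_period (L : ℕ) (hL : L ≠ 0) : ∃ k₀ R : ℕ, 0 < R ∧ ∀ k, k₀ ≤ k → 2 ^ (2 ^ (k + R)) ≡ 2 ^ (2 ^ k) [MOD L] := by
  have : NeZero L := ⟨hL⟩
  obtain ⟨a, b, hab, h⟩ := Finite.exists_ne_map_eq_of_infinite (fun k : ℕ => (((2 ^ (2 ^ k) : ℕ)) : ZMod L))
  have key : ∀ a b : ℕ, a < b → (((2 ^ (2 ^ a) : ℕ)) : ZMod L) = (((2 ^ (2 ^ b) : ℕ)) : ZMod L) →
      ∃ k₀ R : ℕ, 0 < R ∧ ∀ k, k₀ ≤ k → 2 ^ (2 ^ (k + R)) ≡ 2 ^ (2 ^ k) [MOD L] := by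
    intro a b hab h
    refine ⟨a, b - a, by omega, fun k hk => ?_⟩
    induction k, hk using Nat.le_induction with
    | base =>
      rw [show a + (b - a) = b by omega]
      exact ((ZMod.natCast_eq_natCast_iff _ _ _).1 h).symm
    | succ k hk ih =>
      have e : ∀ j : ℕ, 2 ^ (2 ^ (j + 1)) = (2 ^ (2 ^ j)) ^ 2 := by
        intro j
        rw [← pow_mul, pow_succ]
      rw [show k + 1 + (b - a) = k + (b - a) + 1 by omega, e, e]
      exact ih.pow 2
  rcases lt_or_gt_of_ne hab with h1 | h1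
  · exact key a b h1 h
  · exact key b a h1 h.symm

/-- the weights are eventually periodic -/
theorem gw_period (lam : ℕ → ℝ) (N : ℕ) : ∃ k₀ R : ℕ, 0 < R ∧ ∀ n k, k₀ ≤ k → gw lam N n (k + R) = gw lam N n k := by
  obtain ⟨k₀, R, hR, h⟩ := exists_period (N.factorial) (Nat.factorial_ne_zero N)
  refine ⟨k₀, R, hR, fun n k hk => ?_⟩
  unfold gw
  congr 1
  refine sum_congr rfl fun r hr => ?_
  rw [mem_Icc] at hr
  have h1 : 2 ^ (2 ^ (k + R)) ≡ 2 ^ (2 ^ k) [MOD r] := (h k hk).of_dvd (Nat.dvd_factorial (by omega) hr.2)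
  have h2 : n + 2 ^ (2 ^ (k + R)) ≡ n + 2 ^ (2 ^ k) [MOD r] := h1.add_left n
  have h3 : r ∣ n + 2 ^ (2 ^ (k + R)) ↔ r ∣ n + 2 ^ (2 ^ k) := h2.dvd_iff dvd_rfl
  by_cases h4 : r ∣ n + 2 ^ (2 ^ k)
  · rw [if_pos h4, if_pos (h3.2 h4)]
  · rw [if_neg h4, if_neg fun h5 => h4 (h3.1 h5)]

theorem gw_period' {lam : ℕ → ℝ} {N k₀ R : ℕ} (h : ∀ n k, k₀ ≤ k → gw lam N n (k + R) = gw lam N n k) (n m k : ℕ) (hk : k₀ ≤ k) :
    gw lam N n (k + R * m) = gw lam N n k := by
  induction m with
  | zero => rw [mul_zero, add_zero]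
  | succ m ih =>
    rw [show k + R * (m + 1) = k + R * m + R by ring, h n _ (by omega), ih]

/-- the sum over the first `k₀ + R m` terms -/
theorem sum_blocks {lam : ℕ → ℝ} {N k₀ R : ℕ} (h : ∀ n k, k₀ ≤ k → gw lam N n (k + R) = gw lam N n k) (n m : ℕ) :
    ∑ k ∈ range (k₀ + R * m), gw lam N n k = ∑ k ∈ range k₀, gw lam N n k + m * ∑ j ∈ range R, gw lam N n (k₀ + j) := by
  induction m with
  | zero => simp
  | succ m ih =>
    rw [show k₀ + R * (m + 1) = k₀ + R * m + R by ring, sum_range_add, ih]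
    have e : ∀ j ∈ range R, gw lam N n (k₀ + R * m + j) = gw lam N n (k₀ + j) := by
      intro j _
      rw [show k₀ + R * m + j = k₀ + j + R * m by ring]
      exact gw_period' h n m _ (by omega)
    rw [sum_congr rfl e]
    push_cast
    ring

/-- a prime larger than `N` has weight one -/
theorem gw_prime {lam : ℕ → ℝ} (h1 : lam 1 = 1) {N n k : ℕ} (hN : 1 ≤ N) (hp : (n + 2 ^ (2 ^ k)).Prime) (hl : N < n + 2 ^ (2 ^ k)) :
    gw lam N n k = 1 := by
  unfold gw
  have h3 : ∑ r ∈ Icc 1 N, (if r ∣ n + 2 ^ (2 ^ k) then lam r else 0) = lam 1 := by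
    rw [sum_eq_single 1]
    · simp
    · intro r hr hr1
      rw [mem_Icc] at hr
      rw [if_neg]
      intro hd
      rcases (Nat.dvd_prime hp).1 hd with h | h
      · exact hr1 h
      · omega
    · intro h
      exact absurd (mem_Icc.2 ⟨le_rfl, hN⟩) h
  rw [h3, h1]
  norm_num

theorem count_le (p : ℕ → Prop) [DecidablePred p] (g : ℕ → ℝ) (hg : ∀ k, 0 ≤ g k) {N : ℕ} (h : ∀ k, N ≤ k → p k → g k = 1) (K : ℕ) :
    (((range K).filter p).card : ℝ) ≤ N + ∑ k ∈ range K, g k := by
  have hs : (((range K).filter p).card : ℝ) =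
      ((((range K).filter p).filter (fun k => k < N)).card : ℝ) + ((((range K).filter p).filter (fun k => ¬ k < N)).card : ℝ) := by
    rw [← Nat.cast_add, card_filter_add_card_filter_not]
  rw [hs]
  refine add_le_add ?_ ?_
  · have : (((range K).filter p).filter (fun k => k < N)).card ≤ (range N).card := by
      refine card_le_card fun k hk => ?_
      rw [mem_filter] at hk
      exact mem_range.2 hk.2
    rw [card_range] at this
    exact_mod_cast this
  · calc ((((range K).filter p).filter (fun k => ¬ k < N)).card : ℝ)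
        = ∑ k ∈ ((range K).filter p).filter (fun k => ¬ k < N), (1 : ℝ) := by
          rw [sum_const, nsmul_eq_mul, mul_one]
      _ = ∑ k ∈ ((range K).filter p).filter (fun k => ¬ k < N), g k := by
          refine sum_congr rfl fun k hk => ?_
          rw [mem_filter, mem_filter] at hk
          exact (h k (by omega) hk.1.2).symm
      _ ≤ _ := by
          refine sum_le_sum_of_subset_of_nonneg ?_ fun n _ _ => hg n
          exact (filter_subset _ _).trans (filter_subset _ _)

/-- the mean of a periodic function bounds the upper density -/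
theorem limsup_mean (p : ℕ → Prop) [DecidablePred p] (g : ℕ → ℝ) (hg : ∀ k, 0 ≤ g k) {N k₀ R : ℕ} (hR : 0 < R)
    (h : ∀ k, N ≤ k → p k → g k = 1)
    (hs : ∀ m : ℕ, ∑ k ∈ range (k₀ + R * m), g k = ∑ k ∈ range k₀, g k + m * ∑ j ∈ range R, g (k₀ + j)) :
    limsup (fun K : ℕ => (((range K).filter p).card : ℝ) / K) atTop ≤ (∑ j ∈ range R, g (k₀ + j)) / R := by
  set S := ∑ j ∈ range R, g (k₀ + j) with hS
  have hS0 : 0 ≤ S := sum_nonneg fun j _ => hg _
  set c : ℝ := N + ∑ k ∈ range k₀, g k + S with hc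
  have hR0 : (0 : ℝ) < R := by exact_mod_cast hR
  have hb : ∀ K : ℕ, 1 ≤ K → (((range K).filter p).card : ℝ) / K ≤ S / R + c / K := by
    intro K hK
    have hK0 : (0 : ℝ) < K := by exact_mod_cast hK
    have a1 := count_le p g hg h K
    have a2 : ∑ k ∈ range K, g k ≤ ∑ k ∈ range (k₀ + R * (K / R + 1)), g k := by
      refine sum_le_sum_of_subset_of_nonneg ?_ fun k _ _ => hg k
      have := Nat.lt_mul_div_succ K hR
      exact range_subset_range.2 (by omega)
    rw [hs] at a2
    have a3 : (((K / R + 1 : ℕ)) : ℝ) ≤ K / R + 1 := by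
      push_cast
      have := @Nat.cast_div_le ℝ _ _ _ K R
      linarith
    have a4 : (((K / R + 1 : ℕ)) : ℝ) * S ≤ (K / R + 1) * S := mul_le_mul_of_nonneg_right a3 hS0
    rw [div_add_div _ _ hR0.ne' hK0.ne', div_le_div_iff₀ hK0 (by positivity)]
    have a5 : (((range K).filter p).card : ℝ) ≤ K / R * S + c := by
      rw [hc]
      linarith
    have a6 : (((range K).filter p).card : ℝ) * (R * K) ≤ (K / R * S + c) * (R * K) :=
      mul_le_mul_of_nonneg_right a5 (by positivity)
    refine a6.trans (le_of_eq ?_)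
    field_simp
  have hlim : Tendsto (fun K : ℕ => S / R + c / K) atTop (nhds (S / R)) := by
    have := (tendsto_const_div_atTop_nhds_zero_nat c).const_add (S / R)
    rwa [add_zero] at this
  refine (limsup_le_limsup (v := fun K : ℕ => S / R + c / K) ?_ ?_ ?_).trans (le_of_eq hlim.limsup_eq)
  · filter_upwards [eventually_ge_atTop 1] with K hK
    exact hb K hK
  · exact isCoboundedUnder_le_of_le atTop (x := 0) fun K => by positivity
  · exact hlim.isBoundedUnder_le

/-- the mean of the weights over a period bounds the upper density -/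
theorem dens_le {lam : ℕ → ℝ} (h1 : lam 1 = 1) {N k₀ R : ℕ} (hN : 1 ≤ N) (hR : 0 < R)
    (h : ∀ n k, k₀ ≤ k → gw lam N n (k + R) = gw lam N n k) (n : ℕ) :
    dens n ≤ (∑ j ∈ range R, gw lam N n (k₀ + j)) / R := by
  refine limsup_mean _ (gw lam N n) (gw_nonneg lam N n) (N := N) hR ?_ (sum_blocks h n)
  intro k hk hp
  have h3 : k < 2 ^ (2 ^ k) := Nat.lt_two_pow_self.trans Nat.lt_two_pow_self
  exact gw_prime h1 hN hp (lt_of_le_of_lt hk (lt_of_lt_of_le h3 (Nat.le_add_left _ _)))

end Pool.Agent.H88.FP
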